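import Pool.Agent.Helper19.RD.Stmts8

/-! Row SP1 of project RD, eighth form (MP_b7477f_nt): few primes up to `Z ≤ |J| ^ 2 / 64` do not
divide `q`. -/

set_option autoImplicit false

namespace Pool.Agent.Helper51.RD8

open Finset Pool.Agent.Helper18.RD Pool.Agent.Helper19.RD

/-- a nonzero integer `≤ 2 N` has few prime factors -/
theorem npf (z : ℤ) (N : ℕ) (hN : 1 ≤ N) (hz : z ≠ 0) (h : |z| ≤ 2 * N) (Q : Finset ℕ)
    (hQ : ∀ p ∈ Q, p.Prime) :
    ((Q.filter (fun p : ℕ => (p : ℤ) ∣ z)).card : ℝ) ≤ 2 * (1 + Real.log N) := by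
  have h1 : Q.filter (fun p : ℕ => (p : ℤ) ∣ z) ⊆ z.natAbs.primeFactors := by
    intro p hp
    rw [mem_filter] at hp
    rw [Nat.mem_primeFactors]
    exact ⟨hQ p hp.1, Int.natCast_dvd.mp hp.2, by simpa using hz⟩
  have h2 : 2 ^ (Q.filter (fun p : ℕ => (p : ℤ) ∣ z)).card ≤ 2 * N := by
    calc 2 ^ (Q.filter (fun p : ℕ => (p : ℤ) ∣ z)).card
        ≤ 2 ^ z.natAbs.primeFactors.card := Nat.pow_le_pow_right (by norm_num) (card_le_card h1)
      _ ≤ ∏ p ∈ z.natAbs.primeFactors, p :=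
          Finset.pow_card_le_prod _ _ _ fun p hp => (Nat.prime_of_mem_primeFactors hp).two_le
      _ ≤ z.natAbs := Nat.le_of_dvd (by omega) (Nat.prod_primeFactors_dvd _)
      _ ≤ 2 * N := by
        have := Int.natCast_natAbs z
        omega
  have h3 : ((Q.filter (fun p : ℕ => (p : ℤ) ∣ z)).card : ℝ) * Real.log 2 ≤
      Real.log 2 + Real.log N := by
    rw [← Real.log_pow, ← Real.log_mul (by norm_num) (by positivity)]
    exact Real.log_le_log (by positivity) (by exact_mod_cast h2)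
  have hl : (1 / 2 : ℝ) < Real.log 2 := by linarith [Real.log_two_gt_d9]
  have hlN : 0 ≤ Real.log N := Real.log_nonneg (by exact_mod_cast hN)
  by_contra hc
  push Not at hc
  nlinarith

/-- the Jacobi symbol is at most one -/
theorem js_le (a : ℤ) (b : ℕ) : |jacobiSym a b| ≤ 1 := by
  rcases jacobiSym.trichotomy a b with h | h | h <;> rw [h] <;> norm_num

/-- the Jacobi symbol of a square -/
theorem js_sq (a : ℤ) (p : ℕ) (hp : p.Prime) (hs : IsSquare a) (hd : ¬ (p : ℤ) ∣ a) :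
    jacobiSym a p = 1 := by
  obtain ⟨r, rfl⟩ := hs
  rw [jacobiSym.mul_left, ← sq]
  apply jacobiSym.sq_one
  have h2 : ¬ p ∣ r.natAbs := fun h => hd (Dvd.dvd.mul_right (Int.natCast_dvd.mpr h) _)
  have h3 := (Nat.Prime.coprime_iff_not_dvd hp).mpr h2
  rw [Int.gcd_comm]
  exact h3

/-- the bad pairs of `p` -/
def Bad (d : ℕ → ℕ → ℤ) (x y p : ℕ) (z : ℕ × ℕ) : Prop :=
  z.1 = z.2 ∨ z.1 = y ∨ x = z.2 ∨ ¬ IsSquare (d z.1 z.2 * d z.1 y * d x z.2 * d x y) ∨
    (p : ℤ) ∣ d z.1 z.2 ∨ (p : ℤ) ∣ d z.1 y ∨ (p : ℤ) ∣ d x z.2 ∨ (p : ℤ) ∣ d x y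

open Classical in
/-- the inequality for one prime -/
theorem per_p (h : ST_BL1) {N q a Z : ℕ} {S J : Finset ℕ} {e c d : ℕ → ℕ → ℤ} {k : ℤ} {w : ℝ}
    {m : ℕ → ℤ} {x y : ℕ} (D : DatR N q a S e c d k w m) (hJ : J ⊆ S) {p : ℕ}
    (hp : p ∈ NP q Z) :
    (J.card : ℝ) ^ 2 - 2 * (((J ×ˢ J).filter (fun z => Bad d x y p z)).card : ℝ) ≤
      Real.sqrt Z * (((J ×ˢ J).filter (fun z => (p : ℤ) ∣ m z.1 - m z.2)).card : ℝ) := by
  rw [NP, mem_filter, mem_Icc] at hp
  obtain ⟨⟨hp1, hpZ⟩, hpr, hp2, hpq⟩ := hp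
  obtain ⟨g, hg, hchn⟩ := D.datN.chn p hpr hp2 hpq
  obtain ⟨F, hFd⟩ : ∃ F : ℕ → ℤ, F = fun i => g i * jacobiSym (d i y * d x y) p := ⟨_, rfl⟩
  obtain ⟨G, hGd⟩ : ∃ G : ℕ → ℤ, G = fun j => g j * jacobiSym (d x j) p := ⟨_, rfl⟩
  have hg1 : ∀ n, |g n| = 1 := by
    intro n
    rcases hg n with h | h <;> rw [h] <;> norm_num
  have hg2 : ∀ n, g n * g n = 1 := by
    intro n
    rcases hg n with h | h <;> rw [h] <;> norm_num
  have hF : ∀ n, |F n| ≤ 1 := by
    intro n
    rw [hFd]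
    simp only [abs_mul, hg1, one_mul]
    exact js_le _ _
  have hG : ∀ n, |G n| ≤ 1 := by
    intro n
    rw [hGd]
    simp only [abs_mul, hg1, one_mul]
    exact js_le _ _
  have h1 := h p J m m F G hpr hp2 hF hG
  have hT : ∀ z ∈ J ×ˢ J, 1 - 2 * (if Bad d x y p z then (1 : ℤ) else 0) ≤
      jacobiSym (m z.1 + m z.2) p * F z.1 * G z.2 := by
    rintro ⟨i, j⟩ hz
    rw [mem_product] at hz
    have hb : |jacobiSym (m i + m j) p * F i * G j| ≤ 1 := by
      rw [abs_mul, abs_mul]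
      have h3 := js_le (m i + m j) p
      have h4 := hF i
      have h5 := hG j
      have h6 : |jacobiSym (m i + m j) p| * |F i| ≤ 1 := mul_le_one₀ h3 (abs_nonneg _) h4
      exact mul_le_one₀ h6 (abs_nonneg _) h5
    by_cases hbad : Bad d x y p (i, j)
    · rw [if_pos hbad]
      have := neg_le_of_abs_le hb
      linarith
    · rw [if_neg hbad]
      simp only [Bad, not_or, not_not] at hbad
      obtain ⟨hij, hiy, hxj, hsq, n1, n2, n3, n4⟩ := hbad
      have e1 := hchn i (hJ hz.1) j (hJ hz.2) hij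
      have pp : Prime (p : ℤ) := Nat.prime_iff_prime_int.mp hpr
      have e2 : jacobiSym (d i j * d i y * d x j * d x y) p = 1 := by
        apply js_sq _ _ hpr hsq
        intro hdv
        rcases pp.dvd_or_dvd hdv with hdv | hdv
        · rcases pp.dvd_or_dvd hdv with hdv | hdv
          · rcases pp.dvd_or_dvd hdv with hdv | hdv
            · exact n1 hdv
            · exact n2 hdv
          · exact n3 hdv
        · exact n4 hdv
      have e3 : jacobiSym (m i + m j) p * F i * G j = 1 := by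
        rw [e1, hFd, hGd]
        simp only [jacobiSym.mul_left] at e2 ⊢
        calc jacobiSym (d i j) p * g i * g j * (g i * (jacobiSym (d i y) p * jacobiSym (d x y) p)) *
              (g j * jacobiSym (d x j) p)
            = (g i * g i) * (g j * g j) * (jacobiSym (d i j) p * jacobiSym (d i y) p *
                jacobiSym (d x j) p * jacobiSym (d x y) p) := by ring
          _ = 1 := by rw [hg2, hg2, e2]; norm_num
      rw [e3]
      norm_num
  have hS : ((J.card : ℤ) ^ 2 - 2 * (((J ×ˢ J).filter (fun z => Bad d x y p z)).card : ℤ)) ≤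
      ∑ i ∈ J, ∑ j ∈ J, jacobiSym (m i + m j) p * F i * G j := by
    have h3 := sum_le_sum hT
    rw [sum_sub_distrib, ← mul_sum, sum_product (s := J) (t := J)
      (f := fun z => jacobiSym (m z.1 + m z.2) p * F z.1 * G z.2)] at h3
    rw [card_filter]
    push_cast
    refine le_trans (le_of_eq ?_) h3
    simp only [sum_const, card_product, nsmul_eq_mul, mul_one]
    push_cast
    ring
  obtain ⟨s, hs⟩ : ∃ s : ℤ, s = ∑ i ∈ J, ∑ j ∈ J, jacobiSym (m i + m j) p * F i * G j := ⟨_, rfl⟩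
  obtain ⟨B, hB⟩ : ∃ B : ℕ, B = ((J ×ˢ J).filter (fun z => (p : ℤ) ∣ m z.1 - m z.2)).card :=
    ⟨_, rfl⟩
  rw [← hs, ← hB] at h1
  rw [← hs] at hS
  rw [← hB]
  have h4 : (s : ℝ) ^ 2 ≤ (Real.sqrt Z * B) ^ 2 := by
    have h5 : (s : ℝ) ^ 2 ≤ (p : ℝ) * B * B := by exact_mod_cast h1
    rw [mul_pow, Real.sq_sqrt (by positivity)]
    have h6 : (p : ℝ) ≤ Z := by exact_mod_cast hpZ
    have h7 : (0 : ℝ) ≤ (B : ℝ) ^ 2 := by positivity
    nlinarith [mul_le_mul_of_nonneg_right h6 h7]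
  have h5 : (s : ℝ) ≤ Real.sqrt Z * B := by
    refine le_of_sq_le_sq ?_ (by positivity)
    exact h4
  have h6 : ((J.card : ℝ) ^ 2 - 2 * (((J ×ˢ J).filter (fun z => Bad d x y p z)).card : ℝ)) ≤ s := by
    exact_mod_cast hS
  exact h6.trans h5

open Classical in
theorem st_SP1 (h : ST_BL1) : ST_SP1 := by
  intro N q a Z S J e c d k w ξ m x y hN hq hZ D hJ hx hy hxy hNQ hξ hJ1 hJ2
  obtain ⟨L, hL⟩ : ∃ L : ℝ, L = 2 * (1 + Real.log N) := ⟨_, rfl⟩
  have hlN : 0 ≤ Real.log N := Real.log_nonneg (by exact_mod_cast hN)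
  have hQ : ∀ p ∈ NP q Z, p.Prime := fun p hp => by
    rw [NP, mem_filter] at hp
    exact hp.2.1
  -- the sizes of the differences
  have hsz : ∀ n ∈ J, ∀ n' ∈ J, |((n : ℤ) - n')| ≤ N := by
    intro n hn n' hn'
    have h1 := mem_range.mp (D.dat.sub (hJ hn))
    have h2 := mem_range.mp (D.dat.sub (hJ hn'))
    rw [abs_le]
    constructor <;> omega
  have hdn : ∀ n ∈ J, ∀ n' ∈ J, n ≠ n' →
      (((NP q Z).filter (fun p : ℕ => (p : ℤ) ∣ d n n')).card : ℝ) ≤ L := by
    intro n hn n' hn' hne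
    have h1 := D.pos n (hJ hn) n' (hJ hn') hne
    have h2 := D.dat.cd n (hJ hn) n' (hJ hn') hne
    rw [hL]
    refine npf _ N hN (by omega) ?_ _ hQ
    have h3 : (n : ℤ) - n' ≠ 0 := by
      intro h0
      exact hne (by omega)
    have hk : k ≠ 0 ∧ |k| ≤ 2 := by
      rcases D.dat.kap with h | h <;> rw [h] <;> norm_num
    have h4 : c n n' ≠ 0 := by
      intro h0
      rw [h0, zero_mul] at h2
      exact (mul_ne_zero hk.1 h3) h2.symm
    have h5 : |c n n'| * |d n n'| = |k| * |(n : ℤ) - n'| := by rw [← abs_mul, h2, abs_mul]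
    have h6 : 1 ≤ |c n n'| := Int.one_le_abs h4
    have h7 := hsz n hn n' hn'
    have h8 := abs_nonneg (d n n')
    have h9 := abs_nonneg ((n : ℤ) - n')
    nlinarith [hk.2]
  obtain ⟨P, hP⟩ : ∃ P : Finset ℕ, P = NP q Z := ⟨_, rfl⟩
  have hBad : ∀ z ∈ J ×ˢ J, ∑ p ∈ P, (if Bad d x y p z then (1 : ℝ) else 0) ≤
      (P.card : ℝ) * ((if z.1 = z.2 then 1 else 0) + (if z.1 = y then 1 else 0) +
        (if x = z.2 then 1 else 0) + (if z ∈ NQ J d x y then 1 else 0)) + 4 * L := by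
    rintro ⟨i, j⟩ hz
    have hz' := mem_product.mp hz
    have hL0 : 0 ≤ L := by rw [hL]; positivity
    have h0 : ∑ p ∈ P, (if Bad d x y p (i, j) then (1 : ℝ) else 0) ≤ P.card := by
      rw [card_eq_sum_ones]
      push_cast
      refine sum_le_sum fun p _ => ?_
      split_ifs <;> norm_num
    have hP0 : (0 : ℝ) ≤ P.card := by positivity
    have i1 : (0 : ℝ) ≤ (if i = j then 1 else 0) := by split_ifs <;> norm_num
    have i2 : (0 : ℝ) ≤ (if i = y then 1 else 0) := by split_ifs <;> norm_num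
    have i3 : (0 : ℝ) ≤ (if x = j then 1 else 0) := by split_ifs <;> norm_num
    have i4 : (0 : ℝ) ≤ (if (i, j) ∈ NQ J d x y then 1 else 0) := by split_ifs <;> norm_num
    by_cases c1 : i = j ∨ i = y ∨ x = j ∨ (i, j) ∈ NQ J d x y
    · have h1 : (1 : ℝ) ≤ (if i = j then 1 else 0) + (if i = y then 1 else 0) +
        (if x = j then 1 else 0) + (if (i, j) ∈ NQ J d x y then 1 else 0) := by
        rcases c1 with h | h | h | h
        · rw [if_pos h] at i1 ⊢
          linarith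
        · rw [if_pos h] at i2 ⊢
          linarith
        · rw [if_pos h] at i3 ⊢
          linarith
        · rw [if_pos h] at i4 ⊢
          linarith
      simp only at h1 ⊢
      nlinarith [mul_le_mul_of_nonneg_left h1 hP0]
    · simp only [not_or] at c1
      obtain ⟨n1, n2, n3, n4⟩ := c1
      have hsq : IsSquare (d i j * d i y * d x j * d x y) := by
        by_contra hc
        apply n4
        rw [NQ, mem_filter]
        exact ⟨hz, n1, n2, n3, hc⟩
      have h1 : ∑ p ∈ P, (if Bad d x y p (i, j) then (1 : ℝ) else 0) ≤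
          ∑ p ∈ P, ((if (p : ℤ) ∣ d i j then (1 : ℝ) else 0) + (if (p : ℤ) ∣ d i y then 1 else 0) +
            (if (p : ℤ) ∣ d x j then 1 else 0) + (if (p : ℤ) ∣ d x y then 1 else 0)) := by
        refine sum_le_sum fun p _ => ?_
        have j1 : (0 : ℝ) ≤ (if (p : ℤ) ∣ d i j then 1 else 0) := by split_ifs <;> norm_num
        have j2 : (0 : ℝ) ≤ (if (p : ℤ) ∣ d i y then 1 else 0) := by split_ifs <;> norm_num
        have j3 : (0 : ℝ) ≤ (if (p : ℤ) ∣ d x j then 1 else 0) := by split_ifs <;> norm_num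
        have j4 : (0 : ℝ) ≤ (if (p : ℤ) ∣ d x y then 1 else 0) := by split_ifs <;> norm_num
        by_cases hb : Bad d x y p (i, j)
        · rw [if_pos hb]
          rcases hb with h | h | h | h | h | h | h | h
          · exact absurd h n1
          · exact absurd h n2
          · exact absurd h n3
          · exact absurd hsq h
          · simp only at h
            rw [if_pos h]
            linarith
          · simp only at h
            rw [if_pos h]
            linarith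
          · simp only at h
            rw [if_pos h]
            linarith
          · rw [if_pos h]
            linarith
        · rw [if_neg hb]
          linarith
      have hcnt : ∀ u ∈ J, ∀ v ∈ J, u ≠ v →
          ∑ p ∈ P, (if (p : ℤ) ∣ d u v then (1 : ℝ) else 0) ≤ L := by
        intro u hu v hv huv
        have h2 := hdn u hu v hv huv
        rw [card_filter] at h2
        push_cast at h2
        rw [hP]
        exact h2
      rw [sum_add_distrib, sum_add_distrib, sum_add_distrib] at h1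
      have k1 := hcnt i hz'.1 j hz'.2 n1
      have k2 := hcnt i hz'.1 y hy n2
      have k3 := hcnt x hx j hz'.2 n3
      have k4 := hcnt x hx y hy hxy
      have k5 : 0 ≤ (P.card : ℝ) * ((if i = j then 1 else 0) + (if i = y then 1 else 0) +
        (if x = j then 1 else 0) + (if (i, j) ∈ NQ J d x y then 1 else 0)) := by positivity
      simp only at k5 ⊢
      linarith
  have hB : ∀ z ∈ J ×ˢ J, ∑ p ∈ P, (if (p : ℤ) ∣ m z.1 - m z.2 then (1 : ℝ) else 0) ≤
      (P.card : ℝ) * (if z.1 = z.2 then 1 else 0) + L := by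
    rintro ⟨i, j⟩ hz
    have hz' := mem_product.mp hz
    have hL0 : 0 ≤ L := by rw [hL]; positivity
    simp only
    by_cases hij : i = j
    · rw [if_pos hij]
      have h0 : ∑ p ∈ P, (if (p : ℤ) ∣ m i - m j then (1 : ℝ) else 0) ≤ P.card := by
        rw [card_eq_sum_ones]
        push_cast
        refine sum_le_sum fun p _ => ?_
        split_ifs <;> norm_num
      linarith
    · rw [if_neg hij, mul_zero, zero_add]
      have h3 : (i : ℤ) - j ≠ 0 := by
        intro h0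
        exact hij (by omega)
      have h7 := hsz i hz'.1 j hz'.2
      have h4 := npf ((i : ℤ) - j) N hN h3 (by omega) (NP q Z) hQ
      rw [← hL, card_filter] at h4
      push_cast at h4
      refine le_trans ?_ h4
      rw [hP]
      refine sum_le_sum fun p hp => ?_
      rw [NP, mem_filter] at hp
      by_cases hd : (p : ℤ) ∣ m i - m j
      · rw [if_pos hd, if_pos (D.datN.dif i (hJ hz'.1) j (hJ hz'.2) p hp.2.1 hp.2.2.2 hd)]
      · rw [if_neg hd]
        split_ifs <;> norm_num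
  -- sums over the pairs
  have d1 : ∑ z ∈ J ×ˢ J, (if z.1 = z.2 then (1 : ℝ) else 0) = J.card := by
    rw [sum_product]
    have : ∀ i ∈ J, ∑ j ∈ J, (if i = j then (1 : ℝ) else 0) = 1 := by
      intro i hi
      rw [sum_ite_eq, if_pos hi]
    rw [sum_congr rfl this]
    simp
  have d2 : ∑ z ∈ J ×ˢ J, (if z.1 = y then (1 : ℝ) else 0) = J.card := by
    rw [sum_product_right]
    have : ∀ j ∈ J, ∑ i ∈ J, (if i = y then (1 : ℝ) else 0) = 1 := by
      intro i hi
      rw [sum_ite_eq', if_pos hy]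
    rw [sum_congr rfl this]
    simp
  have d3 : ∑ z ∈ J ×ˢ J, (if x = z.2 then (1 : ℝ) else 0) = J.card := by
    rw [sum_product]
    have : ∀ i ∈ J, ∑ j ∈ J, (if x = j then (1 : ℝ) else 0) = 1 := by
      intro i hi
      rw [sum_ite_eq, if_pos hx]
    rw [sum_congr rfl this]
    simp
  have d4 : ∑ z ∈ J ×ˢ J, (if z ∈ NQ J d x y then (1 : ℝ) else 0) ≤ ξ * (J.card : ℝ) ^ 2 := by
    refine le_trans (le_of_eq ?_) hNQ
    rw [← sum_filter, sum_const, nsmul_eq_mul, mul_one]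
    congr 2
    ext z
    rw [mem_filter]
    constructor
    · exact fun h => h.2
    · intro h
      refine ⟨?_, h⟩
      rw [NQ, mem_filter] at h
      exact h.1
  have sB : ∑ p ∈ P, (((J ×ˢ J).filter (fun z => Bad d x y p z)).card : ℝ) ≤
      (P.card : ℝ) * (3 * J.card + ξ * (J.card : ℝ) ^ 2) + 4 * L * (J.card : ℝ) ^ 2 := by
    have h1 := sum_le_sum hBad
    rw [sum_comm, sum_add_distrib, ← mul_sum, sum_add_distrib, sum_add_distrib, sum_add_distrib,
      d1, d2, d3, sum_const, card_product, nsmul_eq_mul] at h1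
    have h2 : ∑ p ∈ P, (((J ×ˢ J).filter (fun z => Bad d x y p z)).card : ℝ) =
        ∑ p ∈ P, ∑ z ∈ J ×ˢ J, (if Bad d x y p z then (1 : ℝ) else 0) := by
      refine sum_congr rfl fun p _ => ?_
      rw [card_filter]
      push_cast
      rfl
    rw [h2]
    push_cast at h1
    have hP0 : (0 : ℝ) ≤ P.card := by positivity
    nlinarith [mul_le_mul_of_nonneg_left d4 hP0]
  have sD : ∑ p ∈ P, (((J ×ˢ J).filter (fun z => (p : ℤ) ∣ m z.1 - m z.2)).card : ℝ) ≤
      (P.card : ℝ) * J.card + L * (J.card : ℝ) ^ 2 := by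
    have h1 := sum_le_sum hB
    rw [sum_comm, sum_add_distrib, ← mul_sum, d1, sum_const, card_product, nsmul_eq_mul] at h1
    have h2 : ∑ p ∈ P, (((J ×ˢ J).filter (fun z => (p : ℤ) ∣ m z.1 - m z.2)).card : ℝ) =
        ∑ p ∈ P, ∑ z ∈ J ×ˢ J, (if (p : ℤ) ∣ m z.1 - m z.2 then (1 : ℝ) else 0) := by
      refine sum_congr rfl fun p _ => ?_
      rw [card_filter]
      push_cast
      rfl
    rw [h2]
    push_cast at h1
    nlinarith
  have hsum : ∑ p ∈ P, ((J.card : ℝ) ^ 2 -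
      2 * (((J ×ˢ J).filter (fun z => Bad d x y p z)).card : ℝ)) ≤
      ∑ p ∈ P, Real.sqrt Z *
        (((J ×ˢ J).filter (fun z => (p : ℤ) ∣ m z.1 - m z.2)).card : ℝ) := by
    refine sum_le_sum fun p hp => ?_
    rw [hP] at hp
    exact per_p h D hJ hp
  rw [sum_sub_distrib, ← mul_sum, ← mul_sum, sum_const, nsmul_eq_mul] at hsum
  rw [← hP]
  obtain ⟨A, hA⟩ : ∃ A : ℝ, A = P.card := ⟨_, rfl⟩
  obtain ⟨B, hBB⟩ : ∃ B : ℝ, B = J.card := ⟨_, rfl⟩
  obtain ⟨R, hR⟩ : ∃ R : ℝ, R = Real.sqrt Z := ⟨_, rfl⟩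
  have hA0 : 0 ≤ A := by rw [hA]; positivity
  have hB100 : 100 ≤ B := by rw [hBB]; exact_mod_cast hJ1
  have hR1 : 1 ≤ R := by
    rw [hR]
    exact Real.one_le_sqrt.mpr (by exact_mod_cast hZ)
  have hR8 : 8 * R ≤ B := by
    have h1 : (64 : ℝ) * Z ≤ B ^ 2 := by rw [hBB]; exact_mod_cast hJ2
    have h2 : R ^ 2 = Z := by rw [hR]; exact Real.sq_sqrt (by positivity)
    nlinarith
  have hL1 : 2 ≤ L := by rw [hL]; linarith
  rw [← hA, ← hBB] at sB sD hsum
  rw [← hR] at hsum
  rw [← hA, ← hR]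
  have hR0 : 0 ≤ R := by linarith
  have t1 := mul_le_mul_of_nonneg_left sD hR0
  have hfin : A * B ^ 2 ≤ 2 * (A * (3 * B + ξ * B ^ 2) + 4 * L * B ^ 2) +
      R * (A * B + L * B ^ 2) := by linarith
  have hAB : 0 ≤ A * B := mul_nonneg hA0 (by linarith)
  have hAB2 : 0 ≤ A * B ^ 2 := mul_nonneg hA0 (by positivity)
  have u1 : 100 * (A * B) ≤ A * B ^ 2 := by nlinarith
  have u2 : A * (ξ * B ^ 2) ≤ A * B ^ 2 / 16 := by nlinarith
  have u3 : 8 * (R * (A * B)) ≤ A * B ^ 2 := by nlinarith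
  have hLB : 0 ≤ L * B ^ 2 := by positivity
  have u4 : L * B ^ 2 ≤ R * (L * B ^ 2) := by nlinarith
  have u5 : 69 / 100 * (A * B ^ 2) ≤ 9 * (R * (L * B ^ 2)) := by nlinarith
  have hB2 : 0 < B ^ 2 := by positivity
  have u6 : 69 / 100 * A ≤ 9 * (R * L) := by
    by_contra hc
    push Not at hc
    nlinarith [mul_lt_mul_of_pos_right hc hB2]
  rw [hL] at u6
  nlinarith [mul_nonneg hR0 (by linarith : (0 : ℝ) ≤ 1 + Real.log N)]

end Pool.Agent.Helper51.RD8
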